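import Pool.Agent.T2H40.MI.Jump

/-!
# `MP_724b08_ag`: multiplier ideals of 22 points on three general lines

Let `Z` be the reduced set of 10 points of a line `L 0`, 7 points of a line `L 1`, 4 points of a
line `L 2` and one further point of the projective plane, in general position (`IsGeneral`), and let
`x`, `y`, `z` be the equations of the lines. Then for all `c > 0` the multiplier ideal `𝓙 (I (Z) ^ c)`
is the intersection of the ideal `monomialIdeal ℓ c` generated by explicit products
`x ^ i y ^ j z ^ k` with the powers `I (q) ^ (⌊c⌋ - 1)` of the ideals of the points `q` of `Z`, and the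
jumping numbers are `3 / 4` and the `c ≥ 1` such that `10 c`, `8 c` or `6 c` is an integer.
-/

set_option autoImplicit false

namespace Pool.Agent.Results.MP_724b08_ag.MultiplierIdeals

open Pool.Agent.T2H40.MI

theorem result (ℓ : Fin 3 → Fin 3 → ℂ) (a : Fin 10 → Fin 3 → ℂ) (b : Fin 7 → Fin 3 → ℂ)
    (e : Fin 4 → Fin 3 → ℂ) (p : Fin 3 → ℂ) (h : IsGeneral ℓ a b e p) :
    (∀ c : ℝ, 0 < c → multiplierIdeal (idealOf (points a b e p)) c =
      ↑(monomialIdeal ℓ c ⊓ ⨅ q ∈ points a b e p, idealOf {q} ^ (⌊c⌋₊ - 1))) ∧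
    jumpingNumbers (idealOf (points a b e p)) =
      {3 / 4} ∪ {c : ℝ | 1 ≤ c ∧ ∃ n : ℕ, 10 * c = n ∨ 8 * c = n ∨ 6 * c = n} :=
  ⟨fun _ hc => multiplier h hc, jumping h⟩

end Pool.Agent.Results.MP_724b08_ag.MultiplierIdeals
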